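import Mathlib
import Pool.Agent.Lib.MP_64d474_lc.BB91.Main

/-!
All linear combinations of the `D × D` minors of an `N × N` matrix of linear forms are hit by the
explicit curve.
-/

namespace Pool.Agent.Lib.MP_64d474_lc.BB91

open Matrix Polynomial

variable {F : Type*} [Field F] {m : ℕ}

theorem combo_mem {N : ℕ} (B : Fin m → Matrix (Fin N) (Fin N) F) (D : ℕ)
    (c : (Fin D → Fin N) × (Fin D → Fin N) → F) :
    (fun x => ∑ p, c p * ((lin B x).submatrix p.1 p.2).det) ∈ minors (lin B) D := by
  have h1 : (fun x => ∑ p, c p * ((lin B x).submatrix p.1 p.2).det) =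
      ∑ p, c p • (fun x => ((lin B x).submatrix p.1 p.2).det) := by
    funext x
    simp [Finset.sum_apply]
  rw [h1]
  exact Submodule.sum_mem _ fun p _ => Submodule.smul_mem _ _ (minor_mem (lin B) D p.1 p.2)

/-- **All combinations of minors are hit.** -/
theorem combo_hits [CharZero F] {N : ℕ} (B : Fin m → Matrix (Fin N) (Fin N) F) (D : ℕ)
    (c : (Fin D → Fin N) × (Fin D → Fin N) → F) (x : Fin m → F)
    (hx : ∑ p, c p * ((∑ k, x k • B k).submatrix p.1 p.2).det ≠ 0) :
    ∃ z : ℕ, z ≤ exc m N D ∧
      ∑ p, c p * ((∑ k, (curve ℕ m N D z k : F) • B k).submatrix p.1 p.2).det ≠ 0 := by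
  classical
  rcases Nat.eq_zero_or_pos D with hD | hD
  · subst hD
    refine ⟨0, Nat.zero_le _, ?_⟩
    simpa using hx
  rcases lt_or_ge N D with hN | hN
  · exfalso
    apply hx
    refine Finset.sum_eq_zero fun p _ => ?_
    have h1 : ¬ Function.Injective p.1 := fun h => by
      have := Fintype.card_le_of_injective _ h
      simp at this
      omega
    rw [Function.Injective] at h1
    push Not at h1
    obtain ⟨i, j, hij, hne⟩ := h1
    rw [Matrix.det_zero_of_row_eq hne (by funext k; simp [Matrix.submatrix_apply, hij]), mul_zero]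
  obtain ⟨q, hq0, hqd, hq⟩ := curve_hits B D hD hN _ (combo_mem B D c) (by
    intro h0
    apply hx
    have h1 := congrFun h0 x
    simpa [lin_apply] using h1)
  have h1 : ∃ z ∈ Finset.range (exc m N D + 1), q.eval ((z : ℕ) : F) ≠ 0 := by
    by_contra hcon
    push Not at hcon
    apply hq0
    refine Polynomial.eq_zero_of_natDegree_lt_card_of_eval_eq_zero' _
      ((Finset.range (exc m N D + 1)).image (fun z : ℕ => (z : F))) ?_ ?_
    · intro a ha
      obtain ⟨z, hz, rfl⟩ := Finset.mem_image.mp ha
      exact hcon z hz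
    · rw [Finset.card_image_of_injective _ Nat.cast_injective, Finset.card_range]
      omega
  obtain ⟨z, hz, hne⟩ := h1
  refine ⟨z, by have := Finset.mem_range.mp hz; omega, ?_⟩
  rw [hq] at hne
  have h2 : curve F m N D (z : F) = fun k => (curve ℕ m N D z k : F) := by
    funext k
    exact (curve_cast m N D z k).symm
  simpa [h2, lin_apply] using hne

end Pool.Agent.Lib.MP_64d474_lc.BB91
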